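import Pool.Agent.Lib.MP_2c1b2b_gt.H5.Gauss

/-!
Small ball and tail bounds for the standard Gaussian measure on `Fin N → ℝ`.
-/

set_option autoImplicit false
open MeasureTheory ProbabilityTheory
open scoped ENNReal NNReal

namespace Zonoid.H5

lemma integral_gauss_shift {r : ℝ} (hr : 0 < r) (a : ℝ) :
    ∫ y : ℝ, Real.exp (-(y - a) ^ 2 / (2 * r ^ 2)) = Real.sqrt (2 * Real.pi) * r := by
  have h := integral_gaussian (1 / (2 * r ^ 2))
  rw [← integral_sub_right_eq_self (fun y : ℝ => Real.exp (-(1 / (2 * r ^ 2)) * y ^ 2)) a] at h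
  have e : (fun y : ℝ => Real.exp (-(y - a) ^ 2 / (2 * r ^ 2))) =
      fun y : ℝ => Real.exp (-(1 / (2 * r ^ 2)) * (y - a) ^ 2) := by
    funext y
    congr 1
    ring
  rw [e, h]
  rw [show Real.pi / (1 / (2 * r ^ 2)) = (2 * Real.pi) * r ^ 2 by field_simp]
  rw [Real.sqrt_mul (by positivity), Real.sqrt_sq hr.le]

lemma integrable_gauss_shift {r : ℝ} (hr : 0 < r) (a : ℝ) :
    Integrable (fun y : ℝ => Real.exp (-(y - a) ^ 2 / (2 * r ^ 2))) := by
  have h := (integrable_exp_neg_mul_sq (b := 1 / (2 * r ^ 2)) (by positivity)).comp_sub_right a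
  refine h.congr (Filter.Eventually.of_forall fun y => ?_)
  simp only
  congr 1
  ring

lemma pdf_le (y : ℝ) : gaussianPDFReal 0 1 y ≤ (Real.sqrt (2 * Real.pi))⁻¹ := by
  rw [pdf_eq]
  have : Real.exp (-(y ^ 2) / 2) ≤ 1 := by
    rw [Real.exp_le_one_iff]
    nlinarith [sq_nonneg y]
  have h0 : 0 ≤ (Real.sqrt (2 * Real.pi))⁻¹ := by positivity
  nlinarith

/-- one-dimensional small ball integral -/
lemma one_dim_small {r : ℝ} (hr : 0 < r) (a : ℝ) :
    ∫ y : ℝ, Real.exp (-(y - a) ^ 2 / (2 * r ^ 2)) ∂(gaussianReal 0 1) ≤ r := by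
  rw [integral_gaussianReal_eq_integral_smul one_ne_zero]
  have hpi : 0 < Real.sqrt (2 * Real.pi) := by positivity
  calc ∫ y : ℝ, gaussianPDFReal 0 1 y • Real.exp (-(y - a) ^ 2 / (2 * r ^ 2))
      ≤ ∫ y : ℝ, (Real.sqrt (2 * Real.pi))⁻¹ * Real.exp (-(y - a) ^ 2 / (2 * r ^ 2)) := by
        apply integral_mono_of_nonneg
        · exact Filter.Eventually.of_forall fun y => by
            simp only [smul_eq_mul, Pi.zero_apply]
            exact mul_nonneg (gaussianPDFReal_nonneg 0 1 y) (Real.exp_pos _).le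
        · exact (integrable_gauss_shift hr a).const_mul _
        · exact Filter.Eventually.of_forall fun y => by
            simp only [smul_eq_mul]
            exact mul_le_mul_of_nonneg_right (pdf_le y) (Real.exp_pos _).le
    _ = r := by
        rw [integral_const_mul, integral_gauss_shift hr a]
        field_simp

/-- one-dimensional exponential moment -/
lemma one_dim_tail : ∫ y : ℝ, Real.exp (y ^ 2 / 4) ∂(gaussianReal 0 1) = Real.sqrt 2 := by
  rw [integral_gaussianReal_eq_integral_smul one_ne_zero]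
  have e : (fun y : ℝ => gaussianPDFReal 0 1 y • Real.exp (y ^ 2 / 4)) =
      fun y : ℝ => (Real.sqrt (2 * Real.pi))⁻¹ * Real.exp (-(1 / 4) * y ^ 2) := by
    funext y
    rw [smul_eq_mul, pdf_eq, mul_assoc, ← Real.exp_add]
    congr 2
    ring
  rw [e, integral_const_mul, integral_gaussian]
  have hpi : 0 < Real.sqrt (2 * Real.pi) := by positivity
  have h2 : Real.sqrt (Real.pi / (1 / 4)) = Real.sqrt 2 * Real.sqrt (2 * Real.pi) := by
    rw [← Real.sqrt_mul (by norm_num)]
    congr 1
    ring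
  rw [h2, mul_comm (Real.sqrt 2), ← mul_assoc, inv_mul_cancel₀ hpi.ne', one_mul]

lemma integrable_tail : Integrable (fun y : ℝ => Real.exp (y ^ 2 / 4)) (gaussianReal 0 1) := by
  by_contra h
  have := integral_undef h
  rw [one_dim_tail] at this
  have h2 : 0 < Real.sqrt 2 := by positivity
  linarith

lemma integrable_small {r : ℝ} (hr : 0 < r) (a : ℝ) :
    Integrable (fun y : ℝ => Real.exp (-(y - a) ^ 2 / (2 * r ^ 2))) (gaussianReal 0 1) := by
  apply Integrable.of_bound (C := 1)
  · exact (by fun_prop : Continuous fun y : ℝ =>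
      Real.exp (-(y - a) ^ 2 / (2 * r ^ 2))).aestronglyMeasurable
  · refine Filter.Eventually.of_forall fun y => ?_
    rw [Real.norm_of_nonneg (Real.exp_pos _).le, Real.exp_le_one_iff]
    have : 0 ≤ (y - a) ^ 2 / (2 * r ^ 2) := by positivity
    have e : -(y - a) ^ 2 / (2 * r ^ 2) = -((y - a) ^ 2 / (2 * r ^ 2)) := by ring
    rw [e]; linarith

/-- `γ(B(a, r√N)) ≤ (√e r)^N`. -/
theorem small_ball (N : ℕ) {r : ℝ} (hr : 0 < r) (a : Fin N → ℝ) :
    (gam N).real {x | ∑ i, (x i - a i) ^ 2 ≤ r ^ 2 * N} ≤ (Real.exp (1 / 2) * r) ^ N := by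
  set φ : (Fin N → ℝ) → ℝ := fun x =>
    Real.exp (1 / 2) ^ N * ∏ i, Real.exp (-(x i - a i) ^ 2 / (2 * r ^ 2)) with hφ
  have hint : Integrable φ (gam N) :=
    (Integrable.fintype_prod fun i => integrable_small hr (a i)).const_mul _
  have hval : ∫ x, φ x ∂(gam N) ≤ (Real.exp (1 / 2) * r) ^ N := by
    rw [integral_const_mul, integral_fintype_prod_eq_prod
      (fun i y => Real.exp (-(y - a i) ^ 2 / (2 * r ^ 2))), mul_pow]
    gcongr
    calc ∏ i : Fin N, ∫ y, Real.exp (-(y - a i) ^ 2 / (2 * r ^ 2)) ∂(gaussianReal 0 1)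
        ≤ ∏ i : Fin N, r := by
          apply Finset.prod_le_prod
          · intro i _
            exact integral_nonneg fun y => (Real.exp_pos _).le
          · intro i _
            exact one_dim_small hr (a i)
      _ = r ^ N := by simp
  refine le_trans ?_ hval
  have hmeas : MeasurableSet {x : Fin N → ℝ | ∑ i, (x i - a i) ^ 2 ≤ r ^ 2 * N} :=
    measurableSet_le (by fun_prop) measurable_const
  rw [← integral_indicator_one hmeas]
  apply integral_mono_of_nonneg
  · exact Filter.Eventually.of_forall fun x => Set.indicator_nonneg (fun _ _ => zero_le_one) x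
  · exact hint
  · refine Filter.Eventually.of_forall fun x => ?_
    by_cases hx : x ∈ {x : Fin N → ℝ | ∑ i, (x i - a i) ^ 2 ≤ r ^ 2 * N}
    · simp only [Set.indicator_of_mem hx, Pi.one_apply]
      simp only [hφ]
      rw [← Real.exp_sum, ← Real.exp_nat_mul, ← Real.exp_add]
      apply Real.one_le_exp
      have e : ∑ i, -(x i - a i) ^ 2 / (2 * r ^ 2) = -((∑ i, (x i - a i) ^ 2) / (2 * r ^ 2)) := by
        rw [← Finset.sum_div, Finset.sum_neg_distrib]; ring
      rw [e]
      have hx' : ∑ i, (x i - a i) ^ 2 ≤ r ^ 2 * N := hx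
      have h2 : (∑ i, (x i - a i) ^ 2) / (2 * r ^ 2) ≤ (r ^ 2 * N) / (2 * r ^ 2) := by gcongr
      have h3 : (r ^ 2 * N) / (2 * r ^ 2) = N * (1 / 2) := by field_simp
      linarith
    · simp only [Set.indicator_of_notMem hx]
      simp only [hφ]
      positivity

/-- `P(|g|² > R²N) ≤ e^{-R²N/4} 2^{N/2}`. -/
theorem tail (N : ℕ) (R : ℝ) :
    (gam N).real {x | R ^ 2 * N < ∑ i, x i ^ 2} ≤
      Real.exp (-(R ^ 2 * N) / 4) * Real.sqrt 2 ^ N := by
  set φ : (Fin N → ℝ) → ℝ := fun x =>
    Real.exp (-(R ^ 2 * N) / 4) * ∏ i, Real.exp ((x i) ^ 2 / 4) with hφ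
  have hint : Integrable φ (gam N) :=
    (Integrable.fintype_prod fun i => integrable_tail).const_mul _
  have hval : ∫ x, φ x ∂(gam N) = Real.exp (-(R ^ 2 * N) / 4) * Real.sqrt 2 ^ N := by
    rw [integral_const_mul, integral_fintype_prod_eq_prod
      (fun _ y => Real.exp (y ^ 2 / 4))]
    simp [one_dim_tail]
  rw [← hval]
  have hmeas : MeasurableSet {x : Fin N → ℝ | R ^ 2 * N < ∑ i, x i ^ 2} :=
    measurableSet_lt measurable_const (by fun_prop)
  rw [← integral_indicator_one hmeas]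
  apply integral_mono_of_nonneg
  · exact Filter.Eventually.of_forall fun x => Set.indicator_nonneg (fun _ _ => zero_le_one) x
  · exact hint
  · refine Filter.Eventually.of_forall fun x => ?_
    by_cases hx : x ∈ {x : Fin N → ℝ | R ^ 2 * N < ∑ i, x i ^ 2}
    · simp only [Set.indicator_of_mem hx, Pi.one_apply]
      simp only [hφ]
      rw [← Real.exp_sum, ← Real.exp_add]
      apply Real.one_le_exp
      rw [← Finset.sum_div]
      have hx' : R ^ 2 * N < ∑ i, x i ^ 2 := hx
      linarith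
    · simp only [Set.indicator_of_notMem hx]
      simp only [hφ]
      positivity

end Zonoid.H5
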