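import Pool.Agent.Lib.MP_2c1b2b_gt.H5.Gauss
import Pool.Agent.Lib.MP_2c1b2b_gt.Interfaces

/-!
The Gaussian weight `gw` of `Interfaces.lean` and the measure `Measure.pi (gaussianReal 0 1)`.
-/

set_option autoImplicit false
open MeasureTheory ProbabilityTheory
open scoped ENNReal NNReal
open Pool.Agent.Lib.MP_2c1b2b_gt

namespace Zonoid.H5

lemma rho_eq (N : ℕ) (x : Fin N → ℝ) :
    rho N x = ((2 * Real.pi) ^ ((N : ℝ) / 2))⁻¹ * Real.exp (-(Pool.Agent.Lib.MP_2c1b2b_gt.sq x) / 2) := by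
  unfold rho Pool.Agent.Lib.MP_2c1b2b_gt.sq
  congr 1
  rw [inv_pow, ← Real.rpow_natCast, Real.sqrt_eq_rpow, ← Real.rpow_mul (by positivity)]
  congr 2
  ring

/-- Bridge between `gw` and the standard Gaussian measure. -/
theorem gw_eq {N : ℕ} {S : Set (Fin N → ℝ)} (hS : MeasurableSet S) :
    gw S = ENNReal.ofReal ((2 * Real.pi) ^ ((N : ℝ) / 2)) * gam N S := by
  rw [gam_apply N hS]
  unfold gw
  rw [← lintegral_const_mul _ (continuous_rho N).measurable.ennreal_ofReal]
  refine lintegral_congr fun x => ?_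
  rw [← ENNReal.ofReal_mul (by positivity), rho_eq, ← mul_assoc,
    mul_inv_cancel₀ (by positivity), one_mul]

/-- `γ(S) ≥ e^{-N} gw(S)`. -/
theorem gam_ge_of_gw {N : ℕ} {S : Set (Fin N → ℝ)} (hS : MeasurableSet S) {C : ℝ}
    (h : ENNReal.ofReal (Real.exp (-(C * N))) ≤ gw S) :
    Real.exp (-((C + 1) * N)) ≤ (gam N).real S := by
  rw [gw_eq hS] at h
  have hpi : (2 * Real.pi) ^ ((N : ℝ) / 2) ≤ Real.exp N := by
    have h1 : 2 * Real.pi ≤ Real.exp 2 := by
      have h2 := Real.pi_lt_d2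
      have h3 : Real.exp 2 = Real.exp 1 * Real.exp 1 := by rw [← Real.exp_add]; norm_num
      have h4 := Real.exp_one_gt_d9
      rw [h3]
      nlinarith
    calc (2 * Real.pi) ^ ((N : ℝ) / 2) ≤ (Real.exp 2) ^ ((N : ℝ) / 2) :=
          Real.rpow_le_rpow (by positivity) h1 (by positivity)
      _ = Real.exp N := by rw [← Real.exp_mul]; congr 1; ring
  have h5 := ENNReal.toReal_mono (by finiteness) h
  rw [ENNReal.toReal_ofReal (Real.exp_pos _).le, ENNReal.toReal_mul,
    ENNReal.toReal_ofReal (by positivity)] at h5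
  have h6 : Real.exp (-(C * N)) ≤ Real.exp N * (gam N).real S := by
    refine h5.trans ?_
    exact mul_le_mul_of_nonneg_right hpi ENNReal.toReal_nonneg
  calc Real.exp (-((C + 1) * N)) = Real.exp (-(N : ℝ)) * Real.exp (-(C * N)) := by
        rw [← Real.exp_add]; congr 1; ring
    _ ≤ Real.exp (-(N : ℝ)) * (Real.exp N * (gam N).real S) := by gcongr
    _ = (gam N).real S := by
        rw [← mul_assoc, ← Real.exp_add]
        simp

end Zonoid.H5
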