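import Mathlib

/-!
The standard Gaussian measure `Measure.pi (fun _ : Fin N => gaussianReal 0 1)` on `Fin N → ℝ`:
density, translation of symmetric sets, small balls, tails.
-/

set_option autoImplicit false
open MeasureTheory ProbabilityTheory
open scoped ENNReal NNReal

namespace Zonoid.H5

/-- The standard Gaussian measure on `Fin N → ℝ`. -/
noncomputable abbrev gam (N : ℕ) : Measure (Fin N → ℝ) :=
  Measure.pi (fun _ : Fin N => gaussianReal 0 1)

lemma pdf_eq (y : ℝ) :
    gaussianPDFReal 0 1 y = (Real.sqrt (2 * Real.pi))⁻¹ * Real.exp (-(y ^ 2) / 2) := by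
  rw [gaussianPDFReal_def]
  simp

/-- The density of the standard Gaussian measure. -/
theorem gam_eq (N : ℕ) :
    gam N = volume.withDensity
      (fun x => ENNReal.ofReal (∏ i, gaussianPDFReal 0 1 (x i))) := by
  apply Measure.pi_eq
  intro s hs
  rw [withDensity_apply _ (MeasurableSet.univ_pi hs)]
  have h1 : ∀ x : Fin N → ℝ, (Set.univ.pi s).indicator
      (fun x => ENNReal.ofReal (∏ i, gaussianPDFReal 0 1 (x i))) x =
      ENNReal.ofReal (∏ i, (s i).indicator (gaussianPDFReal 0 1) (x i)) := by
    intro x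
    by_cases hx : x ∈ Set.univ.pi s
    · rw [Set.indicator_of_mem hx]
      congr 1
      refine Finset.prod_congr rfl fun i _ => ?_
      rw [Set.indicator_of_mem (hx i (Set.mem_univ i))]
    · rw [Set.indicator_of_notMem hx]
      simp only [Set.mem_pi, Set.mem_univ, true_implies, not_forall] at hx
      obtain ⟨i, hi⟩ := hx
      rw [Finset.prod_eq_zero (Finset.mem_univ i) (by rw [Set.indicator_of_notMem hi])]
      simp
  rw [← lintegral_indicator (MeasurableSet.univ_pi hs)]
  simp_rw [h1]
  have hint : ∀ i : Fin N, Integrable ((s i).indicator (gaussianPDFReal 0 1)) volume :=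
    fun i => (integrable_gaussianPDFReal 0 1).indicator (hs i)
  have hnn : ∀ i : Fin N, ∀ y, 0 ≤ (s i).indicator (gaussianPDFReal 0 1) y := by
    intro i y
    exact Set.indicator_nonneg (fun z _ => gaussianPDFReal_nonneg 0 1 z) y
  rw [← ofReal_integral_eq_lintegral_ofReal]
  · rw [show (∫ x : Fin N → ℝ, ∏ i, (s i).indicator (gaussianPDFReal 0 1) (x i)) =
        ∏ i, ∫ y, (s i).indicator (gaussianPDFReal 0 1) y from
        integral_fintype_prod_volume_eq_prod (fun i => (s i).indicator (gaussianPDFReal 0 1))]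
    rw [ENNReal.ofReal_prod_of_nonneg (fun i _ => integral_nonneg (hnn i))]
    refine Finset.prod_congr rfl fun i _ => ?_
    rw [gaussianReal_apply_eq_integral 0 one_ne_zero, integral_indicator (hs i)]
  · exact Integrable.fintype_prod hint
  · exact Filter.Eventually.of_forall fun x => Finset.prod_nonneg fun i _ => hnn i (x i)

/-- The density of the standard Gaussian measure, as one exponential. -/
theorem prod_pdf (N : ℕ) (x : Fin N → ℝ) :
    ∏ i, gaussianPDFReal 0 1 (x i) =
      (Real.sqrt (2 * Real.pi))⁻¹ ^ N * Real.exp (-(∑ i, x i ^ 2) / 2) := by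
  simp_rw [pdf_eq, Finset.prod_mul_distrib, Finset.prod_const, Finset.card_univ, Fintype.card_fin,
    ← Real.exp_sum]
  congr 2
  rw [← Finset.sum_div, Finset.sum_neg_distrib]

/-- density of the standard Gaussian measure -/
noncomputable def rho (N : ℕ) (x : Fin N → ℝ) : ℝ :=
  (Real.sqrt (2 * Real.pi))⁻¹ ^ N * Real.exp (-(∑ i, x i ^ 2) / 2)

lemma rho_pos (N : ℕ) (x : Fin N → ℝ) : 0 < rho N x := by
  unfold rho; positivity

lemma continuous_rho (N : ℕ) : Continuous (rho N) := by
  unfold rho; fun_prop

theorem gam_eq' (N : ℕ) :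
    gam N = volume.withDensity (fun x => ENNReal.ofReal (rho N x)) := by
  rw [gam_eq]
  congr 1
  funext x
  rw [prod_pdf, rho]

lemma gam_apply (N : ℕ) {s : Set (Fin N → ℝ)} (hs : MeasurableSet s) :
    gam N s = ∫⁻ x in s, ENNReal.ofReal (rho N x) := by
  rw [gam_eq', withDensity_apply _ hs]

lemma rho_neg (N : ℕ) (x : Fin N → ℝ) : rho N (-x) = rho N x := by
  unfold rho; simp

/-- `ρ(y+a) + ρ(y-a) ≥ 2 e^{-|a|²/2} ρ(y)` -/
lemma rho_shift (N : ℕ) (y a : Fin N → ℝ) :
    2 * (Real.exp (-(∑ i, a i ^ 2) / 2) * rho N y) ≤ rho N (y + a) + rho N (y - a) := by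
  have e1 : rho N (y + a) = Real.exp (-(∑ i, a i ^ 2) / 2) * rho N y *
      Real.exp (-(∑ i, y i * a i)) := by
    unfold rho
    rw [mul_comm (Real.exp _) (_ * _), mul_assoc, mul_assoc, ← Real.exp_add, ← Real.exp_add]
    congr 2
    simp only [Pi.add_apply, add_sq, Finset.sum_add_distrib]
    have : ∑ i, 2 * y i * a i = 2 * ∑ i, y i * a i := by
      rw [Finset.mul_sum]; exact Finset.sum_congr rfl fun i _ => by ring
    rw [this]; ring
  have e2 : rho N (y - a) = Real.exp (-(∑ i, a i ^ 2) / 2) * rho N y *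
      Real.exp (∑ i, y i * a i) := by
    unfold rho
    rw [mul_comm (Real.exp _) (_ * _), mul_assoc, mul_assoc, ← Real.exp_add, ← Real.exp_add]
    congr 2
    simp only [Pi.sub_apply, sub_sq, Finset.sum_add_distrib, Finset.sum_sub_distrib]
    have : ∑ i, 2 * y i * a i = 2 * ∑ i, y i * a i := by
      rw [Finset.mul_sum]; exact Finset.sum_congr rfl fun i _ => by ring
    rw [this]; ring
  rw [e1, e2]
  set c := Real.exp (-(∑ i, a i ^ 2) / 2) * rho N y
  have hc : 0 < c := mul_pos (Real.exp_pos _) (rho_pos N y)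
  set t := ∑ i, y i * a i
  have h1 := Real.add_one_le_exp t
  have h2 := Real.add_one_le_exp (-t)
  nlinarith

/-- Translation of symmetric sets. -/
theorem gam_shift (N : ℕ) {L : Set (Fin N → ℝ)} (hL : MeasurableSet L) (hsym : ∀ x ∈ L, -x ∈ L)
    (a : Fin N → ℝ) :
    Real.exp (-(∑ i, a i ^ 2) / 2) * (gam N).real L ≤ (gam N).real {x | x - a ∈ L} := by
  have hL' : MeasurableSet {x : Fin N → ℝ | x - a ∈ L} := (measurable_sub_const a) hL
  have hm : ∀ b : Fin N → ℝ, Measurable fun y => ENNReal.ofReal (rho N (y + b)) := fun b =>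
    ((continuous_rho N).comp (continuous_id.add continuous_const)).measurable.ennreal_ofReal
  -- measure of the translate
  have h1 : gam N {x | x - a ∈ L} = ∫⁻ y in L, ENNReal.ofReal (rho N (y + a)) := by
    rw [gam_apply N hL', ← lintegral_indicator hL', ← lintegral_indicator hL,
      ← lintegral_add_right_eq_self (μ := (volume : Measure (Fin N → ℝ))) _ a]
    refine lintegral_congr fun y => ?_
    by_cases hy : y ∈ L
    · rw [Set.indicator_of_mem hy, Set.indicator_of_mem (show y + a ∈ {x | x - a ∈ L} by simpa using hy)]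
    · rw [Set.indicator_of_notMem hy,
        Set.indicator_of_notMem (show y + a ∉ {x | x - a ∈ L} by simpa using hy)]
  have h2 : ∫⁻ y in L, ENNReal.ofReal (rho N (y + a)) = ∫⁻ y in L, ENNReal.ofReal (rho N (y - a)) := by
    rw [← lintegral_indicator hL, ← lintegral_indicator hL,
      ← lintegral_neg_eq_self (μ := (volume : Measure (Fin N → ℝ)))]
    refine lintegral_congr fun y => ?_
    by_cases hy : y ∈ L
    · rw [Set.indicator_of_mem hy, Set.indicator_of_mem (hsym y hy)]
      congr 1
      rw [← rho_neg]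
      congr 1
      abel
    · rw [Set.indicator_of_notMem hy, Set.indicator_of_notMem]
      intro h
      exact hy (by simpa using hsym _ h)
  have h3 : ENNReal.ofReal (2 * Real.exp (-(∑ i, a i ^ 2) / 2)) * gam N L ≤
      2 * gam N {x | x - a ∈ L} := by
    rw [gam_apply N hL, two_mul (gam N _)]
    nth_rw 2 [h1]
    rw [h1, h2]
    nth_rw 1 [← h2]
    rw [← lintegral_add_left (hm a), ← lintegral_const_mul _
      (continuous_rho N).measurable.ennreal_ofReal]
    refine lintegral_mono fun y => ?_
    rw [← ENNReal.ofReal_mul (by positivity), ← ENNReal.ofReal_add (rho_pos N _).le (rho_pos N _).le]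
    apply ENNReal.ofReal_le_ofReal
    have := rho_shift N y a
    linarith
  have h4 := ENNReal.toReal_mono (by finiteness) h3
  rw [ENNReal.toReal_mul, ENNReal.toReal_mul, ENNReal.toReal_ofReal (by positivity)] at h4
  simp only [ENNReal.toReal_ofNat] at h4
  simp only [Measure.real]
  linarith

end Zonoid.H5
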