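import Pool.Agent.Lib.MP_2c1b2b_gt.H5.Bounds

/-!
Packing and pigeonhole.
-/

set_option autoImplicit false
open MeasureTheory ProbabilityTheory
open scoped ENNReal NNReal

namespace Zonoid.H5

/-- A set of large Gaussian measure contains many separated points. -/
theorem exists_separated (N : ℕ) {A : Set (Fin N → ℝ)} {r : ℝ} (hr : 0 < r) {k : ℕ}
    (h : (k : ℝ) * (Real.exp (1 / 2) * r) ^ N < (gam N).real A) :
    ∀ j ≤ k + 1, ∃ X : Finset (Fin N → ℝ), (∀ x ∈ X, x ∈ A) ∧ X.card = j ∧
      ∀ x ∈ X, ∀ y ∈ X, x ≠ y → r ^ 2 * N < ∑ i, (x i - y i) ^ 2 := by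
  classical
  intro j
  induction j with
  | zero => intro _; exact ⟨∅, by simp⟩
  | succ j ih =>
    intro hj
    obtain ⟨X, hXA, hXc, hXs⟩ := ih (by omega)
    have hex : ∃ z ∈ A, ∀ x ∈ X, r ^ 2 * N < ∑ i, (z i - x i) ^ 2 := by
      by_contra hcon
      push Not at hcon
      have hsub : A ⊆ ⋃ x ∈ X, {z : Fin N → ℝ | ∑ i, (z i - x i) ^ 2 ≤ r ^ 2 * N} := by
        intro z hz
        obtain ⟨x, hx, hxz⟩ := hcon z hz
        exact Set.mem_biUnion hx hxz
      have h1 : (gam N).real A ≤
          ∑ x ∈ X, (gam N).real {z : Fin N → ℝ | ∑ i, (z i - x i) ^ 2 ≤ r ^ 2 * N} :=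
        (measureReal_mono hsub (measure_ne_top _ _)).trans (measureReal_biUnion_finset_le X _)
      have h2 : ∑ x ∈ X, (gam N).real {z : Fin N → ℝ | ∑ i, (z i - x i) ^ 2 ≤ r ^ 2 * N} ≤
          ∑ x ∈ X, (Real.exp (1 / 2) * r) ^ N :=
        Finset.sum_le_sum fun x _ => small_ball N hr x
      rw [Finset.sum_const, nsmul_eq_mul, hXc] at h2
      have h3 : (j : ℝ) * (Real.exp (1 / 2) * r) ^ N ≤ (k : ℝ) * (Real.exp (1 / 2) * r) ^ N := by
        have : (j : ℝ) ≤ k := by exact_mod_cast (by omega : j ≤ k)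
        gcongr
      linarith
    obtain ⟨z, hzA, hz⟩ := hex
    have hzX : z ∉ X := by
      intro hzX
      have := hz z hzX
      simp only [sub_self, ne_eq, OfNat.ofNat_ne_zero, not_false_eq_true, zero_pow,
        Finset.sum_const_zero] at this
      have h0 : 0 ≤ r ^ 2 * (N : ℝ) := by positivity
      linarith
    refine ⟨insert z X, ?_, ?_, ?_⟩
    · intro x hx
      rcases Finset.mem_insert.mp hx with rfl | hx
      · exact hzA
      · exact hXA x hx
    · rw [Finset.card_insert_of_notMem hzX, hXc]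
    · intro x hx y hy hxy
      rcases Finset.mem_insert.mp hx with rfl | hx1
      · rcases Finset.mem_insert.mp hy with rfl | hy1
        · exact absurd rfl hxy
        · exact hz y hy1
      · rcases Finset.mem_insert.mp hy with rfl | hy1
        · have := hz x hx1
          calc r ^ 2 * N < ∑ i, (y i - x i) ^ 2 := this
            _ = ∑ i, (x i - y i) ^ 2 := Finset.sum_congr rfl fun i _ => by ring
        · exact hXs x hx1 y hy1 hxy

lemma sum_half (K : ℕ) :
    ∑ z ∈ Finset.Icc (-(K : ℤ)) K, ((1 : ℝ) / 2) ^ z.natAbs = 3 - 2 * (1 / 2) ^ K := by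
  induction K with
  | zero => norm_num
  | succ K ih =>
    have e : Finset.Icc (-((K + 1 : ℕ) : ℤ)) ((K + 1 : ℕ) : ℤ) =
        insert ((K + 1 : ℕ) : ℤ) (insert (-((K + 1 : ℕ) : ℤ)) (Finset.Icc (-(K : ℤ)) K)) := by
      ext z
      simp only [Finset.mem_Icc, Finset.mem_insert]
      push_cast
      omega
    rw [e, Finset.sum_insert, Finset.sum_insert, ih]
    · rw [Int.natAbs_natCast, Int.natAbs_neg, Int.natAbs_natCast]
      ring
    · simp only [Finset.mem_Icc]
      push_cast
      omega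
    · simp only [Finset.mem_insert, Finset.mem_Icc]
      push_cast
      omega

lemma sum_half_le (K : ℕ) :
    ∑ z ∈ Finset.Icc (-(K : ℤ)) K, ((1 : ℝ) / 2) ^ z.natAbs ≤ 3 := by
  rw [sum_half]
  have : (0 : ℝ) ≤ 2 * (1 / 2) ^ K := by positivity
  linarith

/-- Few integer vectors supported in `I` with small `ℓ₁` norm. -/
theorem card_cells (N : ℕ) (I : Finset (Fin N)) (Z : Finset (Fin N → ℤ)) (T : ℝ)
    (h0 : ∀ z ∈ Z, ∀ i, i ∉ I → z i = 0)
    (hT : ∀ z ∈ Z, ((∑ i, (z i).natAbs : ℕ) : ℝ) ≤ T) :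
    (Z.card : ℝ) ≤ 3 ^ I.card * Real.exp T := by
  classical
  set K : ℕ := ⌈T⌉₊ with hK
  set F : Fin N → Finset ℤ := fun i => if i ∈ I then Finset.Icc (-(K : ℤ)) K else {0} with hF
  have hsub : Z ⊆ Fintype.piFinset F := by
    intro z hz
    rw [Fintype.mem_piFinset]
    intro i
    simp only [hF]
    split_ifs with hi
    · have h1 : (z i).natAbs ≤ ∑ j, (z j).natAbs :=
        Finset.single_le_sum (f := fun j => (z j).natAbs) (fun _ _ => Nat.zero_le _)
          (Finset.mem_univ i)
      have h2 : ∑ j, (z j).natAbs ≤ K := by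
        have := (hT z hz).trans (Nat.le_ceil T)
        exact_mod_cast this
      rw [Finset.mem_Icc]
      omega
    · rw [Finset.mem_singleton]
      exact h0 z hz i hi
  have h1 : (Z.card : ℝ) * Real.exp (-T) ≤ ∑ z ∈ Z, ∏ i, ((1 : ℝ) / 2) ^ (z i).natAbs := by
    rw [← nsmul_eq_mul, ← Finset.sum_const]
    refine Finset.sum_le_sum fun z hz => ?_
    rw [Finset.prod_pow_eq_pow_sum]
    calc Real.exp (-T) ≤ Real.exp (-((∑ i, (z i).natAbs : ℕ) : ℝ)) :=
          Real.exp_le_exp.mpr (by have := hT z hz; linarith)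
      _ = Real.exp (-1) ^ (∑ i, (z i).natAbs) := by
          rw [← Real.exp_nat_mul]; congr 1; ring
      _ ≤ (1 / 2) ^ (∑ i, (z i).natAbs) := by
          apply pow_le_pow_left₀ (Real.exp_pos _).le
          rw [Real.exp_neg]
          have := Real.exp_one_gt_d9
          rw [one_div]
          exact inv_anti₀ (by norm_num) (by linarith)
  have h2 : ∑ z ∈ Z, ∏ i, ((1 : ℝ) / 2) ^ (z i).natAbs ≤
      ∑ z ∈ Fintype.piFinset F, ∏ i, ((1 : ℝ) / 2) ^ (z i).natAbs :=
    Finset.sum_le_sum_of_subset_of_nonneg hsub fun z _ _ =>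
      Finset.prod_nonneg fun i _ => by positivity
  have h3 : ∑ z ∈ Fintype.piFinset F, ∏ i, ((1 : ℝ) / 2) ^ (z i).natAbs =
      ∏ i, ∑ z ∈ F i, ((1 : ℝ) / 2) ^ z.natAbs :=
    (Finset.prod_univ_sum F (fun _ z => ((1 : ℝ) / 2) ^ z.natAbs)).symm
  have h4 : ∏ i, ∑ z ∈ F i, ((1 : ℝ) / 2) ^ z.natAbs ≤ ∏ i : Fin N, (if i ∈ I then (3 : ℝ) else 1) := by
    apply Finset.prod_le_prod
    · intro i _
      exact Finset.sum_nonneg fun z _ => by positivity
    · intro i _
      simp only [hF]
      split_ifs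
      · exact sum_half_le K
      · simp
  have h5 : ∏ i : Fin N, (if i ∈ I then (3 : ℝ) else 1) = 3 ^ I.card := by
    rw [Finset.prod_ite_mem, Finset.univ_inter, Finset.prod_const]
  have h6 : (Z.card : ℝ) * Real.exp (-T) ≤ 3 ^ I.card := by
    rw [← h5]; linarith
  calc (Z.card : ℝ) = (Z.card : ℝ) * Real.exp (-T) * Real.exp T := by
        rw [mul_assoc, ← Real.exp_add]; simp
    _ ≤ 3 ^ I.card * Real.exp T := by gcongr

/-- Pigeonhole on cells. -/
theorem exists_cell (N : ℕ) (I : Finset (Fin N)) (X : Finset (Fin N → ℝ)) {lam R T : ℝ}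
    (hlam : 0 < lam) (hR : 0 ≤ R) (hX : ∀ x ∈ X, ∑ i, x i ^ 2 ≤ R ^ 2 * N)
    (hT : lam / 2 * (Real.sqrt I.card * (R * Real.sqrt N)) + I.card ≤ T) :
    ∃ Y ⊆ X, (X.card : ℝ) ≤ 3 ^ I.card * Real.exp T * Y.card ∧
      ∀ x ∈ Y, ∀ y ∈ Y, ∀ i ∈ I, |x i - y i| ≤ 2 / lam := by
  classical
  set cell : (Fin N → ℝ) → (Fin N → ℤ) := fun x i => if i ∈ I then ⌊lam * x i / 2⌋ else 0
    with hcell
  rcases X.eq_empty_or_nonempty with rfl | hne
  · exact ⟨∅, by simp⟩
  have hZ : ((X.image cell).card : ℝ) ≤ 3 ^ I.card * Real.exp T := by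
    apply card_cells N I
    · intro z hz i hi
      obtain ⟨x, -, rfl⟩ := Finset.mem_image.mp hz
      simp [hcell, hi]
    · intro z hz
      obtain ⟨x, hx, rfl⟩ := Finset.mem_image.mp hz
      refine le_trans ?_ hT
      have h1 : ∀ i, (((cell x i).natAbs : ℕ) : ℝ) ≤ if i ∈ I then lam / 2 * |x i| + 1 else 0 := by
        intro i
        simp only [hcell]
        split_ifs with hi
        · rw [Nat.cast_natAbs, Int.cast_abs]
          have h2 := Int.floor_le (lam * x i / 2)
          have h3 := Int.lt_floor_add_one (lam * x i / 2)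
          have h4 := le_abs_self (x i)
          have h5 := neg_abs_le (x i)
          rw [abs_le]
          constructor
          · nlinarith
          · nlinarith
        · simp
      have h6 : ∑ i ∈ I, |x i| ≤ Real.sqrt I.card * (R * Real.sqrt N) := by
        have h7 := Real.sum_mul_le_sqrt_mul_sqrt I (fun _ => (1 : ℝ)) (fun i => |x i|)
        simp only [one_mul, one_pow, Finset.sum_const, nsmul_eq_mul, mul_one, sq_abs] at h7
        refine h7.trans ?_
        gcongr
        calc Real.sqrt (∑ i ∈ I, x i ^ 2) ≤ Real.sqrt (R ^ 2 * N) := by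
              apply Real.sqrt_le_sqrt
              refine le_trans ?_ (hX x hx)
              exact Finset.sum_le_sum_of_subset_of_nonneg (Finset.subset_univ I)
                fun i _ _ => sq_nonneg _
          _ = R * Real.sqrt N := by
              rw [Real.sqrt_mul (by positivity), Real.sqrt_sq hR]
      push_cast
      calc ∑ i, (((cell x i).natAbs : ℕ) : ℝ) ≤ ∑ i, (if i ∈ I then lam / 2 * |x i| + 1 else 0) :=
            Finset.sum_le_sum fun i _ => h1 i
        _ = ∑ i ∈ I, (lam / 2 * |x i| + 1) := by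
            rw [Finset.sum_ite_mem, Finset.univ_inter]
        _ = lam / 2 * ∑ i ∈ I, |x i| + I.card := by
            rw [Finset.sum_add_distrib, ← Finset.mul_sum]; simp
        _ ≤ lam / 2 * (Real.sqrt I.card * (R * Real.sqrt N)) + I.card := by gcongr
  obtain ⟨z, hz, hmax⟩ := Finset.exists_max_image (X.image cell)
    (fun z => (X.filter (fun x => cell x = z)).card) (hne.image cell)
  refine ⟨X.filter (fun x => cell x = z), Finset.filter_subset _ _, ?_, ?_⟩
  · have h1 : X.card ≤ (X.filter (fun x => cell x = z)).card * (X.image cell).card :=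
      Finset.card_le_mul_card_image X _ fun a ha => hmax a ha
    calc (X.card : ℝ) ≤ (X.filter (fun x => cell x = z)).card * (X.image cell).card := by
          exact_mod_cast h1
      _ = ((X.image cell).card : ℝ) * (X.filter (fun x => cell x = z)).card := by ring
      _ ≤ 3 ^ I.card * Real.exp T * (X.filter (fun x => cell x = z)).card := by gcongr
  · intro x hx y hy i hi
    have hx2 := (Finset.mem_filter.mp hx).2
    have hy2 := (Finset.mem_filter.mp hy).2
    have e : cell x i = cell y i := by rw [hx2, hy2]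
    simp only [hcell, hi, if_true] at e
    have h := Int.abs_sub_lt_one_of_floor_eq_floor e
    have e2 : lam * x i / 2 - lam * y i / 2 = lam / 2 * (x i - y i) := by ring
    rw [e2, abs_mul, abs_of_pos (by positivity)] at h
    rw [le_div_iff₀ hlam]
    linarith

end Zonoid.H5
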