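import Pool.Agent.Lib.MP_2c1b2b_gt.H5.Pack
import Pool.Agent.Lib.MP_2c1b2b_gt.H5.Bridge

/-!
Partial colouring for symmetric convex bodies of Gaussian measure `≥ e^{-CN}`, any `C`.
-/

set_option autoImplicit false
open MeasureTheory ProbabilityTheory
open scoped ENNReal NNReal Pointwise

namespace Zonoid.H5

/-- radius -/
noncomputable def cR (C : ℝ) : ℝ := 2 * Real.sqrt (C + 2)
/-- separation -/
noncomputable def cr (C : ℝ) : ℝ := Real.exp (-(C + 13 / 2))
/-- scale -/
noncomputable def clam (C : ℝ) : ℝ := 12 * cR C / cr C ^ 2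
/-- proportion -/
noncomputable def cc (C : ℝ) : ℝ := (1 / (clam C * cR C + 5)) ^ 2

lemma cR_pos {C : ℝ} (hC : 0 ≤ C) : 0 < cR C := by unfold cR; positivity
lemma cr_pos (C : ℝ) : 0 < cr C := Real.exp_pos _
lemma clam_pos {C : ℝ} (hC : 0 ≤ C) : 0 < clam C := by
  have := cR_pos hC; have := cr_pos C; unfold clam; positivity
lemma cc_pos {C : ℝ} (hC : 0 ≤ C) : 0 < cc C := by
  have := cR_pos hC; have := clam_pos hC; unfold cc; positivity
lemma cR_sq {C : ℝ} (hC : 0 ≤ C) : cR C ^ 2 = 4 * (C + 2) := by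
  unfold cR; rw [mul_pow, Real.sq_sqrt (by linarith)]; ring

lemma sqrt_two_le : Real.sqrt 2 ≤ Real.exp (1 / 2) := by
  rw [Real.sqrt_le_left (Real.exp_pos _).le, ← Real.exp_nat_mul]
  have := Real.exp_one_gt_d9
  norm_num at this ⊢
  linarith

/-- The part of `Q` in the ball of radius `R√N` is still large. -/
lemma inter_ball {N : ℕ} (hN : 0 < N) {C : ℝ} (hC : 0 ≤ C) {Q : Set (Fin N → ℝ)}
    (hQ : Real.exp (-(C * N)) ≤ (gam N).real Q) :
    Real.exp (-((C + 1) * N)) ≤ (gam N).real (Q ∩ {x | ∑ i, x i ^ 2 ≤ cR C ^ 2 * N}) := by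
  have h1 : (gam N).real Q ≤ (gam N).real (Q ∩ {x | ∑ i, x i ^ 2 ≤ cR C ^ 2 * N}) +
      (gam N).real {x | cR C ^ 2 * N < ∑ i, x i ^ 2} := by
    refine (measureReal_mono ?_ (measure_ne_top _ _)).trans (measureReal_union_le _ _)
    intro x hx
    by_cases h : ∑ i, x i ^ 2 ≤ cR C ^ 2 * N
    · exact Or.inl ⟨hx, h⟩
    · exact Or.inr (not_le.mp h)
  have h2 := tail N (cR C)
  have h3 : Real.exp (-(cR C ^ 2 * N) / 4) * Real.sqrt 2 ^ N ≤
      Real.exp (-(C * N)) * Real.exp (-(N : ℝ)) := by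
    calc Real.exp (-(cR C ^ 2 * N) / 4) * Real.sqrt 2 ^ N
        ≤ Real.exp (-(cR C ^ 2 * N) / 4) * Real.exp (1 / 2) ^ N := by
          gcongr; exact sqrt_two_le
      _ = Real.exp (-(C * N) - 3 / 2 * N) := by
          rw [← Real.exp_nat_mul, ← Real.exp_add, cR_sq hC]
          congr 1; ring
      _ ≤ Real.exp (-(C * N) + -(N : ℝ)) := by
          apply Real.exp_le_exp.mpr
          have : (0 : ℝ) < N := by exact_mod_cast hN
          linarith
      _ = _ := Real.exp_add _ _
  have h4 : Real.exp (-(N : ℝ)) ≤ 1 / 2 := by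
    have h5 : Real.exp (-(N : ℝ)) ≤ Real.exp (-1) := by
      apply Real.exp_le_exp.mpr
      have : (1 : ℝ) ≤ N := by exact_mod_cast hN
      linarith
    have h6 : Real.exp (-1) ≤ 1 / 2 := by
      rw [Real.exp_neg, one_div]
      have := Real.exp_one_gt_d9
      exact inv_anti₀ (by norm_num) (by linarith)
    linarith
  have h7 : Real.exp (-((C + 1) * N)) = Real.exp (-(C * N)) * Real.exp (-(N : ℝ)) := by
    rw [← Real.exp_add]; congr 1; ring
  rw [h7]
  have h8 := Real.exp_pos (-(C * N))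
  nlinarith

/-- the polar-type set -/
def polarSet {N : ℕ} (Q : Set (Fin N → ℝ)) (I : Finset (Fin N)) (lam : ℝ) : Set (Fin N → ℝ) :=
  {g | ∀ x ∈ Q, (∀ i ∈ I, |x i| ≤ 1 / lam) → ∑ i, g i * x i ≤ 3 * N / lam}

lemma isClosed_polarSet {N : ℕ} (Q : Set (Fin N → ℝ)) (I : Finset (Fin N)) (lam : ℝ) :
    IsClosed (polarSet Q I lam) := by
  unfold polarSet
  simp only [Set.ofPred_forall]
  refine isClosed_iInter fun x => isClosed_iInter fun _ => isClosed_iInter fun _ => ?_
  exact isClosed_le (by fun_prop) continuous_const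

lemma polarSet_symm {N : ℕ} {Q : Set (Fin N → ℝ)} (hQ : ∀ x ∈ Q, -x ∈ Q)
    (I : Finset (Fin N)) (lam : ℝ) : ∀ g ∈ polarSet Q I lam, -g ∈ polarSet Q I lam := by
  intro g hg x hx hxI
  have := hg (-x) (hQ x hx) (fun i hi => by simpa using hxI i hi)
  simpa using this

/-- Main estimate: the polar-type sets have tiny measure. -/
theorem polar_bound {N : ℕ} (hN : 0 < N) {C : ℝ} (hC : 0 ≤ C) {Q : Set (Fin N → ℝ)}
    (hconv : Convex ℝ Q) (hsymm : ∀ x ∈ Q, -x ∈ Q)
    (hQ : Real.exp (-(C * N)) ≤ (gam N).real Q) (I : Finset (Fin N))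
    (hI : (I.card : ℝ) ≤ cc C * N) :
    (gam N).real (polarSet Q I (clam C)) ≤ Real.exp (-(7 / 2 * N)) := by
  have hN' : (0 : ℝ) < N := by exact_mod_cast hN
  have hR := cR_pos hC
  have hr := cr_pos C
  have hlam := clam_pos hC
  have hcc := cc_pos hC
  set R := cR C with hRdef
  set r := cr C with hrdef
  set lam := clam C with hlamdef
  set A := Q ∩ {x : Fin N → ℝ | ∑ i, x i ^ 2 ≤ R ^ 2 * N} with hA
  have hAm : Real.exp (-((C + 1) * N)) ≤ (gam N).real A := inter_ball hN hC hQ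
  -- number of points
  set k : ℕ := ⌈Real.exp (5 * N)⌉₊ - 1 with hk
  have hk0 : 0 < ⌈Real.exp (5 * N)⌉₊ := Nat.ceil_pos.mpr (Real.exp_pos _)
  have hk1 : (k : ℝ) < Real.exp (5 * N) := by
    rw [← Nat.lt_ceil]; omega
  have hk2 : Real.exp (5 * N) ≤ ((k + 1 : ℕ) : ℝ) := by
    have : k + 1 = ⌈Real.exp (5 * N)⌉₊ := by omega
    rw [this]; exact Nat.le_ceil _
  have hkA : (k : ℝ) * (Real.exp (1 / 2) * r) ^ N < (gam N).real A := by
    refine lt_of_lt_of_le ?_ hAm
    have e1 : (Real.exp (1 / 2) * r) ^ N = Real.exp (-((C + 6) * N)) := by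
      rw [hrdef, cr, ← Real.exp_add, ← Real.exp_nat_mul]
      congr 1; ring
    rw [e1]
    calc (k : ℝ) * Real.exp (-((C + 6) * N)) < Real.exp (5 * N) * Real.exp (-((C + 6) * N)) := by
          apply mul_lt_mul_of_pos_right hk1 (Real.exp_pos _)
      _ = Real.exp (-((C + 1) * N)) := by rw [← Real.exp_add]; congr 1; ring
  obtain ⟨X, hXA, hXc, hXs⟩ := exists_separated N hr hkA (k + 1) le_rfl
  -- pigeonhole
  have hcn : (0 : ℝ) ≤ I.card := Nat.cast_nonneg _
  have hden : 0 < lam * R + 5 := by positivity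
  have hsqc : Real.sqrt (cc C) = 1 / (lam * R + 5) := by
    unfold cc; rw [Real.sqrt_sq (by positivity)]
  have hsI : Real.sqrt I.card ≤ 1 / (lam * R + 5) * Real.sqrt N := by
    rw [← hsqc, ← Real.sqrt_mul hcc.le]
    exact Real.sqrt_le_sqrt hI
  have hcc25 : cc C ≤ 1 / 25 := by
    unfold cc
    rw [div_pow, one_pow]
    apply one_div_le_one_div_of_le (by norm_num)
    nlinarith [mul_pos hlam hR]
  set T : ℝ := lam / 2 * (Real.sqrt I.card * (R * Real.sqrt N)) + I.card with hTdef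
  have hT : T ≤ 1 / 2 * N + cc C * N := by
    rw [hTdef]
    have h1 : lam / 2 * (Real.sqrt I.card * (R * Real.sqrt N)) ≤
        lam / 2 * ((1 / (lam * R + 5) * Real.sqrt N) * (R * Real.sqrt N)) := by gcongr
    have h2 : lam / 2 * ((1 / (lam * R + 5) * Real.sqrt N) * (R * Real.sqrt N)) =
        (lam * R / (lam * R + 5)) / 2 * N := by
      have : Real.sqrt N * Real.sqrt N = N := Real.mul_self_sqrt hN'.le
      field_simp
      rw [Real.sq_sqrt hN'.le]
    have h3 : lam * R / (lam * R + 5) ≤ 1 := by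
      rw [div_le_one hden]; linarith
    have h4 : (lam * R / (lam * R + 5)) / 2 * N ≤ 1 / 2 * N := by gcongr
    linarith
  obtain ⟨Y, hYX, hYc, hYd⟩ := exists_cell N I X hlam hR.le (fun x hx => (hXA x hx).2)
    (le_refl T)
  have h3T : (3 : ℝ) ^ I.card * Real.exp T ≤ Real.exp N := by
    have h1 : (3 : ℝ) ≤ Real.exp 2 := by
      have h3 : Real.exp 2 = Real.exp 1 * Real.exp 1 := by rw [← Real.exp_add]; norm_num
      have h4 := Real.exp_one_gt_d9
      rw [h3]; nlinarith
    calc (3 : ℝ) ^ I.card * Real.exp T ≤ (Real.exp 2) ^ I.card * Real.exp T := by gcongr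
      _ = Real.exp (I.card * 2 + T) := by rw [← Real.exp_nat_mul, ← Real.exp_add]
      _ ≤ Real.exp N := by
          apply Real.exp_le_exp.mpr
          nlinarith
  have hYbig : Real.exp (4 * N) ≤ (Y.card : ℝ) := by
    have h1 : Real.exp (5 * N) ≤ Real.exp N * Y.card := by
      calc Real.exp (5 * N) ≤ ((k + 1 : ℕ) : ℝ) := hk2
        _ = (X.card : ℝ) := by rw [hXc]
        _ ≤ 3 ^ I.card * Real.exp T * Y.card := hYc
        _ ≤ Real.exp N * Y.card := by gcongr
    have h2 : Real.exp (5 * N) = Real.exp N * Real.exp (4 * N) := by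
      rw [← Real.exp_add]; congr 1; ring
    rw [h2] at h1
    exact le_of_mul_le_mul_left h1 (Real.exp_pos _)
  -- disjoint translates
  set L := polarSet Q I lam with hL
  have hLm : MeasurableSet L := (isClosed_polarSet Q I lam).measurableSet
  set s : ℝ := 1 / R with hs
  have hs0 : 0 < s := by positivity
  have hdisj : Set.PairwiseDisjoint (↑Y : Set (Fin N → ℝ)) (fun x => {y | y - s • x ∈ L}) := by
    intro x hx x' hx' hne
    rw [Function.onFun, Set.disjoint_left]
    intro y hy hy'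
    have hxQ := (hXA x (hYX hx)).1
    have hxQ' := (hXA x' (hYX hx')).1
    have hq : (1 / 2 : ℝ) • (x - x') ∈ Q := by
      have := hconv hxQ (hsymm x' hxQ') (by norm_num : (0 : ℝ) ≤ 1 / 2)
        (by norm_num : (0 : ℝ) ≤ 1 / 2) (by norm_num)
      rwa [← smul_add, ← sub_eq_add_neg] at this
    have hq' := hsymm _ hq
    have hqI : ∀ i ∈ I, |((1 / 2 : ℝ) • (x - x')) i| ≤ 1 / lam := by
      intro i hi
      have := hYd x hx x' hx' i hi
      simp only [Pi.smul_apply, Pi.sub_apply, smul_eq_mul, abs_mul]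
      rw [abs_of_pos (by norm_num : (0 : ℝ) < 1 / 2)]
      calc 1 / 2 * |x i - x' i| ≤ 1 / 2 * (2 / lam) := by gcongr
        _ = 1 / lam := by ring
    have hqI' : ∀ i ∈ I, |(-((1 / 2 : ℝ) • (x - x'))) i| ≤ 1 / lam := by
      intro i hi
      have := hqI i hi
      simpa [abs_neg] using this
    have h1 := hy' _ hq hqI
    have h2 := hy _ hq' hqI'
    have h3 := hXs x (hYX hx) x' (hYX hx') hne
    have h4 : ∑ i, (y - s • x') i * ((1 / 2 : ℝ) • (x - x')) i +
        ∑ i, (y - s • x) i * (-((1 / 2 : ℝ) • (x - x'))) i = s / 2 * ∑ i, (x i - x' i) ^ 2 := by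
      rw [← Finset.sum_add_distrib, Finset.mul_sum]
      refine Finset.sum_congr rfl fun i _ => ?_
      simp only [Pi.sub_apply, Pi.smul_apply, smul_eq_mul, Pi.neg_apply]
      ring
    have h5 : s / 2 * (r ^ 2 * N) = 6 * N / lam := by
      rw [hlamdef, clam, ← hRdef, ← hrdef, hs]
      field_simp
      norm_num
    have h6 : s / 2 * (r ^ 2 * N) < s / 2 * ∑ i, (x i - x' i) ^ 2 := by gcongr
    have h7 : 3 * N / lam + 3 * N / lam = 6 * N / lam := by ring
    linarith
  have hmeasS : ∀ x : Fin N → ℝ, MeasurableSet {y : Fin N → ℝ | y - s • x ∈ L} := fun x =>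
    (measurable_sub_const (s • x)) hLm
  have hsum : ∑ x ∈ Y, (gam N).real {y | y - s • x ∈ L} ≤ 1 := by
    rw [← measureReal_biUnion_finset hdisj (fun x _ => hmeasS x)]
    exact measureReal_le_one
  have hlow : ∀ x ∈ Y, Real.exp (-(N : ℝ) / 2) * (gam N).real L ≤
      (gam N).real {y | y - s • x ∈ L} := by
    intro x hx
    refine le_trans ?_ (gam_shift N hLm (polarSet_symm hsymm I lam) (s • x))
    have hx2 : ∑ i, x i ^ 2 ≤ R ^ 2 * N := (hXA x (hYX hx)).2
    have h1 : ∑ i, (s • x) i ^ 2 ≤ N := by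
      have : ∑ i, (s • x) i ^ 2 = s ^ 2 * ∑ i, x i ^ 2 := by
        rw [Finset.mul_sum]
        refine Finset.sum_congr rfl fun i _ => ?_
        simp only [Pi.smul_apply, smul_eq_mul]; ring
      rw [this]
      calc s ^ 2 * ∑ i, x i ^ 2 ≤ s ^ 2 * (R ^ 2 * N) := by gcongr
        _ = (N : ℝ) := by rw [hs]; field_simp
    apply mul_le_mul_of_nonneg_right _ measureReal_nonneg
    apply Real.exp_le_exp.mpr
    linarith
  have hfin : (Y.card : ℝ) * (Real.exp (-(N : ℝ) / 2) * (gam N).real L) ≤ 1 := by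
    rw [← nsmul_eq_mul, ← Finset.sum_const]
    exact (Finset.sum_le_sum hlow).trans hsum
  have h1 : Real.exp (4 * N) * (Real.exp (-(N : ℝ) / 2) * (gam N).real L) ≤ 1 := by
    refine le_trans ?_ hfin
    have := measureReal_nonneg (μ := gam N) (s := L)
    gcongr
  have h2 : Real.exp (4 * N) * (Real.exp (-(N : ℝ) / 2) * (gam N).real L) =
      Real.exp (7 / 2 * N) * (gam N).real L := by
    rw [← mul_assoc, ← Real.exp_add]
    congr 2; ring
  rw [h2] at h1
  rw [Real.exp_neg, ← one_div, le_div_iff₀ (Real.exp_pos _)]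
  linarith

/-- There is a direction in which all the bodies `Q_I` are wide. -/
theorem exists_direction {N : ℕ} (hN : 0 < N) {C : ℝ} (hC : 0 ≤ C) {Q : Set (Fin N → ℝ)}
    (hconv : Convex ℝ Q) (hsymm : ∀ x ∈ Q, -x ∈ Q)
    (hQ : Real.exp (-(C * N)) ≤ (gam N).real Q) :
    ∃ g : Fin N → ℝ, ∑ i, |g i| ≤ 3 * N ∧ ∀ I : Finset (Fin N), (I.card : ℝ) ≤ cc C * N →
      ∃ x ∈ Q, (∀ i ∈ I, |x i| ≤ 1 / clam C) ∧ 3 * N / clam C < ∑ i, g i * x i := by
  classical
  have hN' : (1 : ℝ) ≤ N := by exact_mod_cast hN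
  set F : Finset (Finset (Fin N)) := Finset.univ.filter fun I => (I.card : ℝ) ≤ cc C * N with hF
  set B : Set (Fin N → ℝ) := {x : Fin N → ℝ | (3 : ℝ) ^ 2 * (N : ℝ) < ∑ i, x i ^ 2} ∪
    ⋃ I ∈ F, polarSet Q I (clam C) with hBdef
  have hB : (gam N).real B < 1 := by
    have h1 : (gam N).real B ≤ (gam N).real {x : Fin N → ℝ | (3 : ℝ) ^ 2 * (N : ℝ) < ∑ i, x i ^ 2} +
        ∑ I ∈ F, (gam N).real (polarSet Q I (clam C)) :=
      (measureReal_union_le _ _).trans (by gcongr; exact measureReal_biUnion_finset_le F _)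
    have h2 : (gam N).real {x : Fin N → ℝ | (3 : ℝ) ^ 2 * (N : ℝ) < ∑ i, x i ^ 2} ≤
        Real.exp (-(7 / 4)) := by
      refine (tail N 3).trans ?_
      calc Real.exp (-(3 ^ 2 * (N : ℝ)) / 4) * Real.sqrt 2 ^ N
          ≤ Real.exp (-(3 ^ 2 * (N : ℝ)) / 4) * Real.exp (1 / 2) ^ N := by
            gcongr; exact sqrt_two_le
        _ = Real.exp (-(7 / 4 * N)) := by
            rw [← Real.exp_nat_mul, ← Real.exp_add]; congr 1; ring
        _ ≤ Real.exp (-(7 / 4)) := by
            apply Real.exp_le_exp.mpr; linarith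
    have h3 : ∑ I ∈ F, (gam N).real (polarSet Q I (clam C)) ≤ Real.exp (-(5 / 2)) := by
      calc ∑ I ∈ F, (gam N).real (polarSet Q I (clam C))
          ≤ ∑ I ∈ F, Real.exp (-(7 / 2 * N)) := by
            refine Finset.sum_le_sum fun I hI => ?_
            exact polar_bound hN hC hconv hsymm hQ I (Finset.mem_filter.mp hI).2
        _ = (F.card : ℝ) * Real.exp (-(7 / 2 * N)) := by rw [Finset.sum_const, nsmul_eq_mul]
        _ ≤ (Real.exp 1) ^ N * Real.exp (-(7 / 2 * N)) := by
            gcongr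
            have h4 : F.card ≤ 2 ^ N := by
              calc F.card ≤ (Finset.univ : Finset (Finset (Fin N))).card := Finset.card_filter_le _ _
                _ = 2 ^ N := by simp
            calc (F.card : ℝ) ≤ (2 : ℝ) ^ N := by exact_mod_cast h4
              _ ≤ (Real.exp 1) ^ N := by
                  gcongr
                  have := Real.exp_one_gt_d9
                  linarith
        _ = Real.exp (-(5 / 2 * N)) := by
            rw [← Real.exp_nat_mul, ← Real.exp_add]; congr 1; ring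
        _ ≤ Real.exp (-(5 / 2)) := by
            apply Real.exp_le_exp.mpr; linarith
    have h5 : Real.exp (-(7 / 4)) + Real.exp (-(5 / 2)) < 1 := by
      have h6 : Real.exp (-(7 / 4)) ≤ Real.exp (-1) := Real.exp_le_exp.mpr (by norm_num)
      have h7 : Real.exp (-(5 / 2)) ≤ Real.exp (-1) := Real.exp_le_exp.mpr (by norm_num)
      have h8 : Real.exp (-1) < 1 / 2 := by
        rw [Real.exp_neg, one_div]
        have := Real.exp_one_gt_d9
        exact inv_strictAnti₀ (by norm_num) (by linarith)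
      linarith
    exact lt_of_le_of_lt (h1.trans (add_le_add h2 h3)) h5
  have hex : ∃ g, g ∉ B := by
    by_contra hcon
    push Not at hcon
    have : B = Set.univ := Set.eq_univ_of_forall hcon
    rw [this] at hB
    simp at hB
  obtain ⟨g, hg⟩ := hex
  refine ⟨g, ?_, ?_⟩
  · have h1 : ∑ i, g i ^ 2 ≤ 3 ^ 2 * N := by
      by_contra h
      exact hg (Or.inl (not_le.mp h))
    have h2 := Real.sum_mul_le_sqrt_mul_sqrt Finset.univ (fun _ : Fin N => (1 : ℝ)) (fun i => |g i|)
    simp only [one_mul, one_pow, Finset.sum_const, nsmul_eq_mul, mul_one, sq_abs,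
      Finset.card_univ, Fintype.card_fin] at h2
    refine h2.trans ?_
    calc Real.sqrt N * Real.sqrt (∑ i, g i ^ 2) ≤ Real.sqrt N * Real.sqrt (3 ^ 2 * N) := by gcongr
      _ = 3 * N := by
          rw [Real.sqrt_mul (by positivity), Real.sqrt_sq (by norm_num)]
          have := Real.mul_self_sqrt (by linarith : (0 : ℝ) ≤ N)
          linarith
  · intro I hI
    have h1 : g ∉ polarSet Q I (clam C) := by
      intro h
      apply hg
      refine Or.inr (Set.mem_biUnion (x := I) ?_ h)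
      simp [hF, hI]
    unfold polarSet at h1
    simp only [Set.mem_ofPred_eq, not_forall, not_le] at h1
    obtain ⟨x, hx, hxI, hlt⟩ := h1
    exact ⟨x, hx, hxI, hlt⟩

/-- Partial colouring, product measure form. -/
theorem partial_colouring' {N : ℕ} (hN : 0 < N) {C : ℝ} (hC : 0 ≤ C) {Q : Set (Fin N → ℝ)}
    (hcl : IsClosed Q) (hconv : Convex ℝ Q) (hsymm : ∀ x ∈ Q, -x ∈ Q)
    (hQ : Real.exp (-(C * N)) ≤ (gam N).real Q) :
    ∃ w : Fin N → ℝ, w ∈ clam C • Q ∧ (∀ i, |w i| ≤ 1) ∧
      cc C * N < ((Finset.univ.filter (fun i => |w i| = 1)).card : ℝ) := by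
  classical
  obtain ⟨g, hg1, hg2⟩ := exists_direction hN hC hconv hsymm hQ
  have hlam := clam_pos hC
  set lam := clam C with hlamdef
  -- 0 ∈ Q
  have hne : Q.Nonempty := by
    by_contra h
    rw [Set.not_nonempty_iff_eq_empty] at h
    rw [h] at hQ
    simp only [measureReal_empty] at hQ
    exact absurd hQ (not_le.mpr (Real.exp_pos _))
  have h0 : (0 : Fin N → ℝ) ∈ Q := by
    obtain ⟨x, hx⟩ := hne
    have := hconv hx (hsymm x hx) (by norm_num : (0 : ℝ) ≤ 1 / 2)
      (by norm_num : (0 : ℝ) ≤ 1 / 2) (by norm_num)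
    simpa using this
  set K : Set (Fin N → ℝ) := lam • Q ∩ Set.Icc (fun _ => -1) (fun _ => 1) with hK
  have hclQ : IsClosed (lam • Q) := hcl.smul_of_ne_zero hlam.ne'
  have hKc : IsCompact K := isCompact_Icc.inter_left hclQ
  have hKne : K.Nonempty := by
    refine ⟨0, ?_, ?_⟩
    · exact ⟨0, h0, by simp⟩
    · constructor <;> intro i <;> simp
  obtain ⟨w, hwK, hwmax⟩ := hKc.exists_isMaxOn hKne
    (f := fun x => ∑ i, g i * x i) (by fun_prop : Continuous fun x : Fin N → ℝ =>
      ∑ i, g i * x i).continuousOn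
  have hw1 : ∀ i, |w i| ≤ 1 := fun i => abs_le.mpr ⟨hwK.2.1 i, hwK.2.2 i⟩
  refine ⟨w, hwK.1, hw1, ?_⟩
  by_contra hcon
  rw [not_lt] at hcon
  set I := Finset.univ.filter (fun i => |w i| = 1) with hI
  obtain ⟨q, hqQ, hqI, hq⟩ := hg2 I hcon
  set x : Fin N → ℝ := lam • q with hx
  have hgw : ∑ i, g i * w i ≤ 3 * N := by
    refine le_trans ?_ hg1
    refine Finset.sum_le_sum fun i _ => ?_
    calc g i * w i ≤ |g i * w i| := le_abs_self _
      _ = |g i| * |w i| := abs_mul _ _
      _ ≤ |g i| * 1 := by gcongr; exact hw1 i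
      _ = |g i| := mul_one _
  have hgx : 3 * N < ∑ i, g i * x i := by
    have : ∑ i, g i * x i = lam * ∑ i, g i * q i := by
      rw [Finset.mul_sum]
      refine Finset.sum_congr rfl fun i _ => ?_
      simp only [hx, Pi.smul_apply, smul_eq_mul]; ring
    rw [this]
    calc (3 * N : ℝ) = lam * (3 * N / lam) := by field_simp
      _ < lam * ∑ i, g i * q i := by gcongr
  -- small step towards x
  have hstep : ∃ τ : ℝ, 0 < τ ∧ τ ≤ 1 ∧ ∀ i, |w i + τ * (x i - w i)| ≤ 1 := by
    have hi : ∀ i : Fin N, ∃ τ : ℝ, 0 < τ ∧ τ ≤ 1 ∧ ∀ σ, 0 ≤ σ → σ ≤ τ →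
        |w i + σ * (x i - w i)| ≤ 1 := by
      intro i
      by_cases hwi : |w i| = 1
      · refine ⟨1, one_pos, le_rfl, fun σ h0 h1 => ?_⟩
        have hxi : |x i| ≤ 1 := by
          have := hqI i (by simp [hI, hwi])
          simp only [hx, Pi.smul_apply, smul_eq_mul, abs_mul, abs_of_pos hlam]
          calc lam * |q i| ≤ lam * (1 / lam) := by gcongr
            _ = 1 := by field_simp
        have e : w i + σ * (x i - w i) = (1 - σ) * w i + σ * x i := by ring
        rw [e]
        calc |(1 - σ) * w i + σ * x i| ≤ |(1 - σ) * w i| + |σ * x i| := abs_add_le _ _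
          _ = (1 - σ) * |w i| + σ * |x i| := by
              rw [abs_mul, abs_mul, abs_of_nonneg (by linarith), abs_of_nonneg h0]
          _ ≤ (1 - σ) * 1 + σ * 1 := by
              have := hw1 i
              gcongr
          _ = 1 := by ring
      · have hlt : |w i| < 1 := lt_of_le_of_ne (hw1 i) hwi
        set D := |x i - w i| + 1 with hD
        have hD0 : 0 < D := by positivity
        refine ⟨min 1 ((1 - |w i|) / D), lt_min one_pos (div_pos (by linarith) hD0),
          min_le_left _ _, fun σ h0 h1 => ?_⟩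
        have h2 : σ ≤ (1 - |w i|) / D := h1.trans (min_le_right _ _)
        rw [le_div_iff₀ hD0] at h2
        calc |w i + σ * (x i - w i)| ≤ |w i| + |σ * (x i - w i)| := abs_add_le _ _
          _ = |w i| + σ * |x i - w i| := by rw [abs_mul, abs_of_nonneg h0]
          _ ≤ |w i| + σ * D := by gcongr; linarith
          _ ≤ 1 := by linarith
    choose τ hτ0 hτ1 hτ2 using hi
    have : Nonempty (Fin N) := ⟨⟨0, hN⟩⟩
    obtain ⟨j, -, hj⟩ := Finset.exists_min_image Finset.univ τ ⟨⟨0, hN⟩, Finset.mem_univ _⟩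
    exact ⟨τ j, hτ0 j, hτ1 j, fun i => hτ2 i (τ j) (hτ0 j).le (hj i (Finset.mem_univ i))⟩
  obtain ⟨τ, hτ0, hτ1, hτ2⟩ := hstep
  have hmem : w + τ • (x - w) ∈ K := by
    constructor
    · have hcQ : Convex ℝ (lam • Q) := hconv.smul lam
      have hxm : x ∈ lam • Q := ⟨q, hqQ, rfl⟩
      have := hcQ hwK.1 hxm (by linarith : (0 : ℝ) ≤ 1 - τ) hτ0.le (by ring)
      convert this using 1
      module
    · constructor
      · intro i
        have := (abs_le.mp (hτ2 i)).1
        simpa [smul_eq_mul] using this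
      · intro i
        have := (abs_le.mp (hτ2 i)).2
        simpa [smul_eq_mul] using this
  have hle := hwmax hmem
  simp only [Set.mem_ofPred_eq] at hle
  have e : ∑ i, g i * (w + τ • (x - w)) i = ∑ i, g i * w i + τ * (∑ i, g i * x i - ∑ i, g i * w i) := by
    rw [← Finset.sum_sub_distrib, Finset.mul_sum, ← Finset.sum_add_distrib]
    refine Finset.sum_congr rfl fun i _ => ?_
    simp only [Pi.add_apply, Pi.smul_apply, Pi.sub_apply, smul_eq_mul]; ring
  rw [e] at hle
  have : 0 < τ * (∑ i, g i * x i - ∑ i, g i * w i) := mul_pos hτ0 (by linarith)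
  linarith

/-- Partial colouring theorem. -/
theorem pcStatement : Pool.Agent.Lib.MP_2c1b2b_gt.PCStatement := by
  classical
  intro C hC
  have hC1 : 0 ≤ C + 1 := by linarith
  refine ⟨clam (C + 1), clam_pos hC1, cc (C + 1) / 2, by have := cc_pos hC1; positivity, 1, ?_⟩
  intro N hN Q hcl hconv hsymm hgw
  have hQ := gam_ge_of_gw hcl.measurableSet hgw
  obtain ⟨w, hwQ, hw1, hwc⟩ := partial_colouring' (by omega : 0 < N) hC1 hcl hconv hsymm hQ
  have hunion : Finset.univ.filter (fun i => |w i| = 1) =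
      Finset.univ.filter (fun i => w i = 1) ∪ Finset.univ.filter (fun i => w i = -1) := by
    ext i
    simp only [Finset.mem_filter, Finset.mem_univ, true_and, Finset.mem_union]
    constructor
    · intro h
      exact (abs_eq (by norm_num)).mp h
    · rintro (h | h) <;> simp [h]
  have hcard : ((Finset.univ.filter (fun i => |w i| = 1)).card : ℝ) ≤
      (Finset.univ.filter (fun i => w i = 1)).card + (Finset.univ.filter (fun i => w i = -1)).card := by
    rw [hunion]
    exact_mod_cast Finset.card_union_le _ _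
  by_cases h : cc (C + 1) / 2 * N ≤ ((Finset.univ.filter (fun i => w i = -1)).card : ℝ)
  · exact ⟨w, hwQ, hw1, h⟩
  · refine ⟨-w, ?_, ?_, ?_⟩
    · obtain ⟨q, hq, rfl⟩ := hwQ
      exact ⟨-q, hsymm q hq, by simp⟩
    · intro i; simpa using hw1 i
    · have e : Finset.univ.filter (fun i => (-w) i = -1) = Finset.univ.filter (fun i => w i = 1) := by
        ext i
        simp
      rw [e]
      push Not at h
      linarith

end Zonoid.H5
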