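import Pool.Agent.Lib.MP_2c1b2b_gt.H7.Sparse
import Pool.Agent.Lib.MP_2c1b2b_gt.H68.VolFinal
import Pool.Agent.Lib.MP_2c1b2b_gt.H5.PartialColouring

/-!
# MP_2c1b2b_gt: sparsification with an explicit dependence on `ε`

`m ≤ (C / ε ^ 2) * n` with an absolute constant `C` (the argument of `H7.Iterate`, with the
constants taken before `ε`).
-/

open MeasureTheory
open scoped BigOperators ENNReal Pointwise RealInnerProductSpace

namespace Pool.Agent.Lib.MP_2c1b2b_gt.H5S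

open Pool.Agent.Lib.MP_2c1b2b_gt Pool.Agent.Lib.MP_2c1b2b_gt.H7

noncomputable section

/-- The sparsification of a spanning family of nonzero vectors, absolute constant. -/
theorem sparse_span_abs (VS : VolStatement) (PC : PCStatement) :
    ∃ C : ℝ, 0 < C ∧ ∀ ε : ℝ, 0 < ε → ε ≤ 1 → ∀ n N : ℕ, 1 ≤ n → ∀ v : Fin N → E n,
      (∀ i, v i ≠ 0) → (∀ x, (∀ i, ⟪v i, x⟫ = 0) → x = 0) →
        ∃ (m : ℕ) (u : Fin m → E n), (m : ℝ) ≤ C / ε ^ 2 * n ∧
          ∀ x, (1 - ε) * zn v x ≤ zn u x ∧ zn u x ≤ (1 + ε) * zn v x := by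
  obtain ⟨L, hL, c₀, hc₀, N₀, H₀⟩ := halving VS PC
  -- make the constant smaller than one
  obtain ⟨c, hc, hc1, hcc⟩ : ∃ c : ℝ, 0 < c ∧ c < 1 ∧ c ≤ c₀ :=
    ⟨min c₀ (1 / 2), lt_min hc₀ (by norm_num), lt_of_le_of_lt (min_le_right _ _) (by norm_num),
      min_le_left _ _⟩
  have hb0 : 0 ≤ Real.sqrt (1 - c) := Real.sqrt_nonneg _
  have hb1 : Real.sqrt (1 - c) < 1 := by
    rw [Real.sqrt_lt' one_pos]
    linarith
  set b : ℝ := Real.sqrt (1 - c) with hb
  have h1b : 0 < 1 - b := by linarith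
  -- the absolute constant
  set K : ℝ := 4 * L / (1 - b) + 2 * L + 1 + N₀ with hK
  have hq0 : 0 < 4 * L / (1 - b) := by positivity
  have hN₀0 : (0 : ℝ) ≤ N₀ := Nat.cast_nonneg _
  have hK0 : 0 < K := by linarith
  refine ⟨K ^ 2, by positivity, ?_⟩
  intro ε hε hε1
  have hlog : ε / 2 ≤ Real.log (1 + ε) := by
    have h1 := Real.one_sub_inv_le_log_of_pos (by linarith : (0 : ℝ) < 1 + ε)
    refine le_trans ?_ h1
    have h2 : 1 - (1 + ε)⁻¹ = ε / (1 + ε) := by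
      field_simp
      ring
    rw [h2]
    exact div_le_div_of_nonneg_left hε.le (by linarith) (by linarith)
  have hlog0 : 0 < Real.log (1 + ε) := by linarith [half_pos hε]
  set R : ℝ := K / ε with hR
  have hKR : K ≤ R := by
    rw [hR, le_div_iff₀ hε]
    nlinarith
  have hR1 : 1 ≤ R := by linarith
  have hRN : (N₀ : ℝ) ≤ R := by linarith
  have hRL : 2 * L ≤ R := by linarith
  have hden : 0 < (1 - b) * Real.log (1 + ε) := mul_pos h1b hlog0
  have hRe : 2 * L / ((1 - b) * Real.log (1 + ε)) ≤ R := by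
    have h1 : 2 * L / ((1 - b) * Real.log (1 + ε)) ≤ 2 * L / ((1 - b) * (ε / 2)) := by
      refine div_le_div_of_nonneg_left (by positivity) (by positivity) ?_
      exact mul_le_mul_of_nonneg_left hlog h1b.le
    have h2 : 2 * L / ((1 - b) * (ε / 2)) = (4 * L / (1 - b)) / ε := by
      field_simp
      ring
    rw [h2] at h1
    refine h1.trans ?_
    rw [hR]
    exact div_le_div_of_nonneg_right (by linarith) hε.le
  have hR0 : 0 < R := by linarith
  have hsq : Real.sqrt (R ^ 2) = R := Real.sqrt_sq hR0.le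
  have hR2 : R ^ 2 = K ^ 2 / ε ^ 2 := by rw [hR, div_pow]
  rw [← hR2]
  intro n N hn v hv hspan
  have hnR : (1 : ℝ) ≤ (n : ℝ) := by exact_mod_cast hn
  have H : ∀ N : ℕ, n ≤ N → N₀ ≤ N → ∀ v : Fin N → E n, (∀ i, v i ≠ 0) →
      (∀ x, (∀ i, ⟪v i, x⟫ = 0) → x = 0) →
        ∃ (m : ℕ) (u : Fin m → E n), (m : ℝ) ≤ (1 - c) * N ∧ (∀ i, u i ≠ 0) ∧
          ∀ x, |zn u x - zn v x| ≤ L * Real.sqrt (n / N) * zn v x := by
    intro N hnN hN v hv hs
    obtain ⟨m, u, hm, hu0, hu⟩ := H₀ n N hn hnN hN v hv hs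
    refine ⟨m, u, hm.trans ?_, hu0, hu⟩
    have : (0 : ℝ) ≤ N := Nat.cast_nonneg _
    nlinarith
  -- the number of steps
  obtain ⟨k, hk⟩ : ∃ k : ℕ, (N : ℝ) * (1 - c) ^ k ≤ R ^ 2 * n := by
    have h1 : ∃ k : ℕ, (1 - c) ^ k < 1 / ((N : ℝ) + 1) :=
      exists_pow_lt_of_lt_one (by positivity) (by linarith)
    obtain ⟨k, hk⟩ := h1
    refine ⟨k, ?_⟩
    have h2 : (N : ℝ) * (1 - c) ^ k ≤ N * (1 / ((N : ℝ) + 1)) :=
      mul_le_mul_of_nonneg_left hk.le (Nat.cast_nonneg _)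
    have h3 : (N : ℝ) * (1 / ((N : ℝ) + 1)) ≤ 1 := by
      rw [mul_one_div, div_le_one (by positivity)]
      linarith
    nlinarith
  obtain ⟨m, u, hm, hu⟩ := iterate hn hL hc hc1 H (A := R ^ 2) (by nlinarith) (by nlinarith)
    (by rw [hsq, div_le_iff₀ hR0]; linarith) k N v hv hspan hk
  rw [hsq, ← hb] at hu
  have hgeo : (∑ j ∈ Finset.range k, b ^ j) ≤ 1 / (1 - b) := by
    rw [le_div_iff₀ (by linarith)]
    have h1 : (∑ j ∈ Finset.range k, b ^ j) * (b - 1) = b ^ k - 1 := geom_sum_mul b k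
    have h2 : 0 ≤ b ^ k := pow_nonneg hb0 k
    linarith
  have hE : 2 * (L / R) * ∑ j ∈ Finset.range k, b ^ j ≤ Real.log (1 + ε) := by
    calc 2 * (L / R) * ∑ j ∈ Finset.range k, b ^ j ≤ 2 * (L / R) * (1 / (1 - b)) :=
          mul_le_mul_of_nonneg_left hgeo (by positivity)
      _ ≤ Real.log (1 + ε) := by
          have h1 : 2 * (L / R) * (1 / (1 - b)) = 2 * L / ((1 - b) * R) := by
            have : (1 - b) ≠ 0 := by linarith
            field_simp
          rw [h1, div_le_iff₀ (mul_pos (by linarith) hR0)]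
          rw [div_le_iff₀ hden] at hRe
          linarith
  refine ⟨m, u, hm, fun x => ?_⟩
  have hz := zn_nonneg v x
  have he1 : Real.exp (Real.log (1 + ε)) = 1 + ε := Real.exp_log (by linarith)
  have he2 : 1 - ε ≤ Real.exp (-Real.log (1 + ε)) := by
    rw [Real.exp_neg, he1, ← one_div, le_div_iff₀ (by linarith)]
    nlinarith [sq_nonneg ε]
  constructor
  · refine le_trans (mul_le_mul_of_nonneg_right (he2.trans (Real.exp_le_exp.2 ?_)) hz) (hu x).1
    linarith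
  · refine le_trans (hu x).2 (mul_le_mul_of_nonneg_right ?_ hz)
    calc _ ≤ Real.exp (Real.log (1 + ε)) := Real.exp_le_exp.2 hE
      _ = 1 + ε := he1

/-- Sparsification of zonotope norms with `C n / ε ^ 2` vectors. -/
theorem sparse_abs : ∃ C : ℝ, 0 < C ∧ ∀ ε : ℝ, 0 < ε → ε ≤ 1 → ∀ (n N : ℕ) (v : Fin N → E n),
    ∃ (m : ℕ) (w : Fin m → E n), (m : ℝ) ≤ C / ε ^ 2 * n ∧
      ∀ x, (1 - ε) * zn v x ≤ zn w x ∧ zn w x ≤ (1 + ε) * zn v x := by
  obtain ⟨C, hC, H⟩ := sparse_span_abs Pool.Agent.Lib.MP_2c1b2b_gt.H68.volStatement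
    Zonoid.H5.pcStatement
  refine ⟨C, hC, fun ε hε hε1 n N v => ?_⟩
  exact sparse_of_span (ε := ε) (A := C / ε ^ 2) (by positivity) (H ε hε hε1) n N v

end

end Pool.Agent.Lib.MP_2c1b2b_gt.H5S
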