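import Pool.Agent.Lib.MP_2c1b2b_gt.H5.SparseAbs
import Pool.Agent.Lib.MP_2c1b2b_gt.H33.Zonoid

/-!
# MP_2c1b2b_gt: zonoids, quantitative form
-/

open scoped RealInnerProductSpace Pointwise BigOperators

namespace Pool.Agent.Lib.MP_2c1b2b_gt.H5S

open Pool.Agent.Lib.MP_2c1b2b_gt Pool.Agent.Lib.MP_2c1b2b_gt.H33

/-- From a sparsification with accuracy `e ≤ ε / 8` to zonoids, in the same position. -/
theorem core {ε e A : ℝ} (hε : 0 < ε) (he : 0 < e) (he1 : e ≤ 1 / 8) (he2 : 8 * e ≤ ε)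
    (hSP : ∀ (n N : ℕ) (v : Fin N → E n), ∃ (m : ℕ) (w : Fin m → E n), (m : ℝ) ≤ A * n ∧
      ∀ x, (1 - e) * zn v x ≤ zn w x ∧ zn w x ≤ (1 + e) * zn v x)
    (n : ℕ) (K : Set (E n)) (hK : IsCompact K) (hint : (interior K).Nonempty)
    (hlim : ∀ δ : ℝ, 0 < δ → ∃ m : ℕ, ∃ v : Fin m → E n, Metric.hausdorffDist K (Zt v) < δ) :
    ∃ m : ℕ, (m : ℝ) ≤ A * n ∧ ∃ v : Fin m → E n, K ⊆ Zt v ∧ Zt v ⊆ (1 + ε) • K := by
  have hne : K.Nonempty := hint.mono interior_subset
  have hconv : Convex ℝ K := convex_of_limit hK hne hlim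
  have hsymm : ∀ x ∈ K, -x ∈ K := fun x hx => neg_mem_of_limit hK hne hlim hx
  obtain ⟨r, hr, hball⟩ := exists_ball hconv hsymm hint
  obtain ⟨N, v, hv⟩ := hlim (e * r) (by positivity)
  obtain ⟨m, w, hm, hw⟩ := hSP n N v
  set s : ℝ := 1 / ((1 - e) * (1 - e)) with hs_def
  have h1e : 0 < 1 - e := by linarith
  have hs : 0 < s := by positivity
  refine ⟨m, hm, fun i => s • w i, ?_, ?_⟩
  · refine subset_of_inner_le (B := Zt fun i => s • w i) (convex_Zt _) (isCompact_Zt _).isClosed ?_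
    intro x a ha
    obtain ⟨z, hz, hzx⟩ := exists_inner_eq_zn (fun i => s • w i) x
    refine ⟨z, hz, ?_⟩
    obtain ⟨y, hy, hmax, h0, hlow, -⟩ := support_compare hK hne hr hball he hv x
    rw [hzx, zn_smul hs.le]
    refine (hmax a ha).trans ?_
    have h1 := (hw x).1
    have h2 : (1 - e) * ((1 - e) * ⟪y, x⟫) ≤ zn w x :=
      le_trans (mul_le_mul_of_nonneg_left hlow h1e.le) h1
    have h3 : ⟪y, x⟫ = s * ((1 - e) * ((1 - e) * ⟪y, x⟫)) := by
      rw [hs_def]; field_simp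
    rw [h3]
    gcongr
  · have h1ε : (0 : ℝ) < 1 + ε := by linarith
    refine subset_of_inner_le (A := Zt fun i => s • w i) (hconv.smul (1 + ε)) ?_ ?_
    · exact (hK.smul (1 + ε)).isClosed
    intro x a ha
    obtain ⟨y, hy, hmax, h0, -, hup⟩ := support_compare hK hne hr hball he hv x
    refine ⟨(1 + ε) • y, Set.smul_mem_smul_set hy, ?_⟩
    have h1 := inner_le_zn ha x
    rw [zn_smul hs.le] at h1
    refine h1.trans ?_
    rw [real_inner_smul_left]
    have h2 : zn w x ≤ (1 + e) * ((1 + e) * ⟪y, x⟫) :=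
      le_trans (hw x).2 (mul_le_mul_of_nonneg_left hup (by linarith))
    have h3 : s * ((1 + e) * (1 + e)) ≤ 1 + ε := by
      rw [hs_def, one_div, inv_mul_le_iff₀ (by positivity)]
      nlinarith [mul_pos he he]
    calc s * zn w x ≤ s * ((1 + e) * ((1 + e) * ⟪y, x⟫)) := by gcongr
      _ = s * ((1 + e) * (1 + e)) * ⟪y, x⟫ := by ring
      _ ≤ (1 + ε) * ⟪y, x⟫ := by gcongr

/-- A symmetric set close to a translate of a zonotope is close to the zonotope itself. -/
theorem centre {n m : ℕ} {K : Set (E n)} (hK : IsCompact K) (hne : K.Nonempty)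
    (hsymm : ∀ x ∈ K, -x ∈ K) {δ : ℝ} (hδ : 0 < δ) (v : Fin m → E n) (a : E n)
    (h : Metric.hausdorffDist K ((fun z => a + z) '' Zt v) < δ) :
    Metric.hausdorffDist K (Zt v) ≤ 2 * δ := by
  have hcpt : IsCompact ((fun z => a + z) '' Zt v) := (isCompact_Zt v).image (by fun_prop)
  have fin : Metric.hausdorffEDist K ((fun z => a + z) '' Zt v) ≠ ⊤ :=
    Metric.hausdorffEDist_ne_top_of_nonempty_of_bounded hne ((nonempty_Zt v).image _) hK.isBounded
      hcpt.isBounded
  -- the translation vector is short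
  have ha : ‖a‖ ≤ δ := by
    obtain ⟨z, hz, hza⟩ := exists_inner_eq_zn v a
    obtain ⟨k, hk, hkz⟩ := Metric.exists_dist_lt_of_hausdorffDist_lt' (Set.mem_image_of_mem _ hz)
      h fin
    obtain ⟨y, hy, hky⟩ := Metric.exists_dist_lt_of_hausdorffDist_lt (hsymm k hk) h fin
    obtain ⟨z', hz', rfl⟩ := hy
    have h1 : ‖(a + z) - k‖ ≤ δ := by
      rw [← dist_eq_norm, dist_comm]; exact hkz.le
    have h2 : ‖(a + z') + k‖ ≤ δ := by
      have h3 : ‖-k - (a + z')‖ ≤ δ := by rw [← dist_eq_norm]; exact hky.le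
      have h4 : (a + z') + k = -(-k - (a + z')) := by abel
      rw [h4, norm_neg]; exact h3
    have h3 : ⟪((a + z) - k) + ((a + z') + k), a⟫ ≤ 2 * δ * ‖a‖ := by
      calc ⟪((a + z) - k) + ((a + z') + k), a⟫ ≤ ‖((a + z) - k) + ((a + z') + k)‖ * ‖a‖ :=
            real_inner_le_norm _ _
        _ ≤ (‖(a + z) - k‖ + ‖(a + z') + k‖) * ‖a‖ :=
            mul_le_mul_of_nonneg_right (norm_add_le _ _) (norm_nonneg _)
        _ ≤ (δ + δ) * ‖a‖ := mul_le_mul_of_nonneg_right (add_le_add h1 h2) (norm_nonneg _)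
        _ = 2 * δ * ‖a‖ := by ring
    have h4 : ⟪((a + z) - k) + ((a + z') + k), a⟫ = 2 * ‖a‖ ^ 2 + (⟪z, a⟫ + ⟪z', a⟫) := by
      have : ((a + z) - k) + ((a + z') + k) = (2 : ℝ) • a + (z + z') := by
        rw [two_smul]; abel
      rw [this, inner_add_left, inner_add_left, real_inner_smul_left, real_inner_self_eq_norm_sq]
    have h5 : 0 ≤ ⟪z, a⟫ + ⟪z', a⟫ := by
      have h6 := inner_le_zn (neg_mem_Zt hz') a
      rw [inner_neg_left] at h6
      rw [hza]
      linarith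
    have h6 : 2 * ‖a‖ ^ 2 ≤ 2 * δ * ‖a‖ := by linarith
    by_cases h0 : ‖a‖ = 0
    · rw [h0]; exact hδ.le
    · have h7 : 0 < ‖a‖ := lt_of_le_of_ne (norm_nonneg _) (Ne.symm h0)
      have h8 : ‖a‖ * ‖a‖ ≤ δ * ‖a‖ := by nlinarith
      exact le_of_mul_le_mul_right h8 h7
  refine Metric.hausdorffDist_le_of_mem_dist (by positivity) ?_ ?_
  · intro x hx
    obtain ⟨y, hy, hxy⟩ := Metric.exists_dist_lt_of_hausdorffDist_lt hx h fin
    obtain ⟨z, hz, rfl⟩ := hy
    refine ⟨z, hz, ?_⟩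
    calc dist x z ≤ dist x (a + z) + dist (a + z) z := dist_triangle _ _ _
      _ ≤ δ + δ := by
          refine add_le_add hxy.le ?_
          rw [dist_eq_norm, add_sub_cancel_right]
          exact ha
      _ = 2 * δ := by ring
  · intro z hz
    obtain ⟨k, hk, hkz⟩ := Metric.exists_dist_lt_of_hausdorffDist_lt' (Set.mem_image_of_mem _ hz)
      h fin
    refine ⟨k, hk, ?_⟩
    calc dist z k ≤ dist z (a + z) + dist (a + z) k := dist_triangle _ _ _
      _ ≤ δ + δ := by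
          refine add_le_add ?_ ?_
          · rw [dist_comm, dist_eq_norm, add_sub_cancel_right]
            exact ha
          · rw [dist_comm]
            exact hkz.le
      _ = 2 * δ := by ring

/-- A set with interior contained in a linear image of a zonotope with `M` segments in `ℝⁿ`
forces `n ≤ M`. -/
theorem card_le {n m : ℕ} {K : Set (E n)} (hint : (interior K).Nonempty) (v : Fin m → E n)
    (T : E n ≃ₗ[ℝ] E n) (h : K ⊆ T '' Zt v) : n ≤ m := by
  set F : Submodule ℝ (E n) := (Submodule.span ℝ (Set.range v)).map (T : E n →ₗ[ℝ] E n) with hF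
  have hKF : K ⊆ (F : Set (E n)) := by
    intro x hx
    obtain ⟨z, hz, rfl⟩ := h hx
    refine Submodule.mem_map_of_mem (f := (T : E n →ₗ[ℝ] E n)) ?_
    obtain ⟨t, -, rfl⟩ := (mem_Zt v z).1 hz
    exact Submodule.sum_mem _ fun i _ =>
      Submodule.smul_mem _ _ (Submodule.subset_span ⟨i, rfl⟩)
  have htop : F = ⊤ := Submodule.eq_top_of_nonempty_interior' F
    (hint.mono (interior_mono hKF))
  have h1 : Module.finrank ℝ F ≤ m := by
    calc Module.finrank ℝ F ≤ Module.finrank ℝ (Submodule.span ℝ (Set.range v)) :=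
          Submodule.finrank_map_le _ _
      _ ≤ Fintype.card (Fin m) := finrank_range_le_card v
      _ = m := Fintype.card_fin m
  rw [htop, finrank_top] at h1
  simpa using h1

end Pool.Agent.Lib.MP_2c1b2b_gt.H5S
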